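import Pool.Agent.T2H43.LK.Main

set_option autoImplicit false

/-!
# Curvature is not invariant under Gorenstein linkage

For the linked ideals `I`, `J` of `Pool.Agent.T2H43.LK.Main` one has `curv_S(J) ≤ 1` and
`2 ≤ curv_S(I)`.
-/

namespace Pool.Agent.Results.MP_ae0d71_al.CurvatureDiffers

open Pool.Agent.T2H43.LK

/-- There are a Gorenstein local ring `S`, a Gorenstein perfect ideal `a` and proper ideals `I`, `J`
linked by `a`, with `S/I` and `S/J` Cohen-Macaulay, such that `curv_S(J) ≤ 1 < 2 ≤ curv_S(I)`. -/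
theorem result :
    ∃ (S : Type) (_ : CommRing S) (_ : IsLocalRing S) (a I J : Ideal S),
      IsGorensteinLocal S ∧ IsGorensteinPerfect a ∧ I ≠ ⊤ ∧ J ≠ ⊤ ∧ IsLinked a I J ∧
      IsCMLocal (S ⧸ I) ∧ IsCMLocal (S ⧸ J) ∧ curv S J ≤ 1 ∧ 2 ≤ curv S I :=
  ⟨D2 RR, inferInstance, inferInstance, ⊥, II, J1, gor, gorPerf, II_ne_top, J1_ne_top,
    linked, cm_quot _ II_ne_top, cm_quot _ J1_ne_top, limsup_le_one betti_J1,
    two_le_limsup betti_II⟩

end Pool.Agent.Results.MP_ae0d71_al.CurvatureDiffers
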